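import Pool.Agent.H741R2.SST.Bases

/-!
# Links of families of bases
-/

namespace Pool.Agent.H641R2.SST

open Finset Pool.Agent.H741R2.SST

/-- sum over the bases of the sum over ordered pairs of distinct elements -/
def QQ {α : Type} [DecidableEq α] (𝓑 : Finset (Finset α)) (g : α → ℝ) : ℝ :=
  ∑ B ∈ 𝓑, ((∑ x ∈ B, g x) ^ 2 - ∑ x ∈ B, g x ^ 2)

/-- sum over the bases of the sum over the elements -/
def LL {α : Type} [DecidableEq α] (𝓑 : Finset (Finset α)) (g : α → ℝ) : ℝ :=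
  ∑ B ∈ 𝓑, ∑ x ∈ B, g x

variable {α : Type} [DecidableEq α]

/-- The link of an element. -/
def link (𝓑 : Finset (Finset α)) (x : α) : Finset (Finset α) :=
  (𝓑.filter (x ∈ ·)).image (Finset.erase · x)

theorem link_inj (𝓑 : Finset (Finset α)) (x : α) :
    Set.InjOn (Finset.erase · x) (𝓑.filter (x ∈ ·) : Finset (Finset α)) := by
  intro A hA B hB h
  simp only [coe_filter, Set.mem_setOf_eq] at hA hB
  have := congrArg (insert x) h
  simpa [insert_erase hA.2, insert_erase hB.2] using this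

theorem sum_link (𝓑 : Finset (Finset α)) (x : α) (F : Finset α → ℝ) :
    ∑ B ∈ link 𝓑 x, F B = ∑ B ∈ 𝓑 with x ∈ B, F (B.erase x) := by
  unfold link
  rw [sum_image (link_inj 𝓑 x)]

theorem card_link (𝓑 : Finset (Finset α)) (x : α) : #(link 𝓑 x) = #{B ∈ 𝓑 | x ∈ B} := by
  unfold link
  exact card_image_of_injOn (link_inj 𝓑 x)

theorem isBases_link {𝓑 : Finset (Finset α)} {r : ℕ} (h : IsBases 𝓑 (r + 1)) (x : α) :
    IsBases (link 𝓑 x) r where
  card_eq := by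
    intro B' hB'
    obtain ⟨B, hB, rfl⟩ := mem_image.1 hB'
    rw [mem_filter] at hB
    rw [card_erase_of_mem hB.2, h.card_eq B hB.1, Nat.add_sub_cancel]
  exch := by
    intro A' hA' B' hB' y hy
    obtain ⟨A, hA, rfl⟩ := mem_image.1 hA'
    obtain ⟨B, hB, rfl⟩ := mem_image.1 hB'
    rw [mem_filter] at hA hB
    simp only [mem_sdiff, mem_erase, not_and] at hy
    have hyB : y ∉ B := fun h' => hy.2 hy.1.1 h'
    obtain ⟨z, hz, hz'⟩ := h.exch A hA.1 B hB.1 y (mem_sdiff.2 ⟨hy.1.2, hyB⟩)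
    rw [mem_sdiff] at hz
    have hzx : z ≠ x := fun e => hz.2 (e ▸ hA.2)
    refine ⟨z, ?_, ?_⟩
    · simp only [mem_sdiff, mem_erase, not_and]
      exact ⟨⟨hzx, hz.1⟩, fun _ => hz.2⟩
    · refine mem_image.2 ⟨_, mem_filter.2 ⟨hz', ?_⟩, ?_⟩
      · exact mem_insert_of_mem (mem_erase.2 ⟨fun e => hy.1.1 e.symm, hA.2⟩)
      · rw [erase_insert_of_ne hzx, erase_right_comm]

theorem sum_swap [Fintype α] (𝓑 : Finset (Finset α)) (F : α → Finset α → ℝ) :
    ∑ x, ∑ B ∈ 𝓑 with x ∈ B, F x B = ∑ B ∈ 𝓑, ∑ x ∈ B, F x B := by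
  simp_rw [sum_filter]
  rw [sum_comm]
  refine sum_congr rfl fun B _ => ?_
  rw [← sum_filter]
  refine sum_congr ?_ fun _ _ => rfl
  ext x; simp

end Pool.Agent.H641R2.SST
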