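import Pool.Agent.H641R2.SST.Link

/-!
# The basis generating polynomial of a matroid is Lorentzian at the all-ones vector
-/

namespace Pool.Agent.H641R2.SST

open Finset Pool.Agent.H741R2.SST Matrix

/-! ### A consequence of the spectral theorem -/

theorem spec {α : Type} [DecidableEq α] [Fintype α] (A : Matrix α α ℝ) (hA : A.IsHermitian)
    (u : α → ℝ) (hu : ∀ (v : α → ℝ) (lam : ℝ), A *ᵥ v = lam • v → 0 < lam → v ⬝ᵥ u = 0) :
    u ⬝ᵥ A *ᵥ u ≤ 0 := by
  classical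
  set b := hA.eigenvectorBasis with hb
  set U : EuclideanSpace ℝ α := WithLp.toLp 2 u with hU
  set W : EuclideanSpace ℝ α := WithLp.toLp 2 (A *ᵥ u) with hW
  have hin : ∀ x y : EuclideanSpace ℝ α, inner ℝ x y = (x : α → ℝ) ⬝ᵥ (y : α → ℝ) := by
    intro x y
    rw [EuclideanSpace.inner_eq_star_dotProduct]
    simp [dotProduct_comm]
  have h1 : u ⬝ᵥ A *ᵥ u = ∑ i, inner ℝ U (b i) * inner ℝ (b i) W := by
    rw [OrthonormalBasis.sum_inner_mul_inner, hin]
  rw [h1]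
  refine sum_nonpos fun i _ => ?_
  have h2 : inner ℝ (b i) W = hA.eigenvalues i * inner ℝ U (b i) := by
    rw [hin, hin]
    change (b i : α → ℝ) ⬝ᵥ A *ᵥ u = _ * (u ⬝ᵥ (b i : α → ℝ))
    rw [dotProduct_mulVec, ← mulVec_transpose]
    have : Aᵀ = A := by
      have := hA
      rwa [IsHermitian, conjTranspose_eq_transpose_of_trivial] at this
    rw [this, hb, hA.mulVec_eigenvectorBasis, smul_dotProduct, dotProduct_comm, smul_eq_mul]
  rw [h2]
  rcases le_or_gt (hA.eigenvalues i) 0 with h | h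
  · have : inner ℝ U (b i) * (hA.eigenvalues i * inner ℝ U (b i)) =
        hA.eigenvalues i * (inner ℝ U (b i)) ^ 2 := by ring
    rw [this]
    exact mul_nonpos_of_nonpos_of_nonneg h (sq_nonneg _)
  · have h3 := hu (b i) (hA.eigenvalues i) (by rw [hb]; exact hA.mulVec_eigenvectorBasis i) h
    have : inner ℝ U (b i) = 0 := by
      rw [hin, dotProduct_comm]; exact h3
    rw [this]; simp

/-! ### Weights -/

variable {α : Type} [DecidableEq α]

/-- number of bases through a point -/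
def w1 (𝓑 : Finset (Finset α)) (x : α) : ℝ := #{B ∈ 𝓑 | x ∈ B}

/-- number of bases through two different points -/
def w2 (𝓑 : Finset (Finset α)) (x y : α) : ℝ := #{B ∈ 𝓑 | x ∈ B ∧ y ∈ B.erase x}

theorem w1_nonneg (𝓑 : Finset (Finset α)) (x : α) : 0 ≤ w1 𝓑 x := Nat.cast_nonneg _

theorem w2_nonneg (𝓑 : Finset (Finset α)) (x y : α) : 0 ≤ w2 𝓑 x y := Nat.cast_nonneg _

theorem w2_symm (𝓑 : Finset (Finset α)) (x y : α) : w2 𝓑 x y = w2 𝓑 y x := by
  unfold w2
  congr 2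
  ext B
  simp only [mem_filter, mem_erase]
  tauto

theorem w2_self (𝓑 : Finset (Finset α)) (x : α) : w2 𝓑 x x = 0 := by
  unfold w2; simp

theorem w2_le (𝓑 : Finset (Finset α)) (x y : α) : w2 𝓑 x y ≤ w1 𝓑 x := by
  unfold w2 w1
  norm_cast
  refine card_le_card fun B hB => ?_
  simp only [mem_filter] at hB ⊢
  exact ⟨hB.1, hB.2.1⟩

theorem w2_zero {𝓑 : Finset (Finset α)} {x : α} (h : w1 𝓑 x = 0) (y : α) : w2 𝓑 x y = 0 :=
  le_antisymm (h ▸ w2_le 𝓑 x y) (w2_nonneg 𝓑 x y)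

theorem LL_link [Fintype α] (𝓑 : Finset (Finset α)) (x : α) (g : α → ℝ) :
    LL (link 𝓑 x) g = ∑ y, w2 𝓑 x y * g y := by
  unfold LL
  rw [sum_link]
  have : ∀ B : Finset α, ∑ y ∈ B.erase x, g y = ∑ y, if y ∈ B.erase x then g y else 0 := by
    intro B
    rw [← sum_filter]
    refine sum_congr ?_ fun _ _ => rfl
    ext y; simp
  simp_rw [this]
  rw [sum_comm]
  refine sum_congr rfl fun y _ => ?_
  rw [← sum_filter, filter_filter, sum_const, nsmul_eq_mul]
  rfl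

theorem LL_eq [Fintype α] (𝓑 : Finset (Finset α)) (g : α → ℝ) :
    LL 𝓑 g = ∑ x, w1 𝓑 x * g x := by
  unfold LL
  rw [← sum_swap 𝓑 fun x _ => g x]
  refine sum_congr rfl fun x _ => ?_
  rw [sum_const, nsmul_eq_mul]
  rfl

theorem QQ_eq [Fintype α] (𝓑 : Finset (Finset α)) (g : α → ℝ) :
    QQ 𝓑 g = ∑ x, g x * LL (link 𝓑 x) g := by
  unfold QQ LL
  simp_rw [sum_link, mul_sum]
  rw [sum_swap 𝓑 fun x B => ∑ y ∈ B.erase x, g x * g y]
  refine sum_congr rfl fun B _ => ?_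
  rw [sq, sum_mul, ← sum_sub_distrib]
  refine sum_congr rfl fun x hx => ?_
  rw [← mul_sum, ← sum_erase_add _ _ hx]
  ring

theorem sum_w2 [Fintype α] {𝓑 : Finset (Finset α)} {r : ℕ} (h : IsBases 𝓑 (r + 1)) (x : α) :
    ∑ y, w2 𝓑 x y = r * w1 𝓑 x := by
  have h1 := LL_link 𝓑 x (fun _ => 1)
  simp only [mul_one] at h1
  rw [← h1]
  unfold LL
  simp only [sum_const, nsmul_eq_mul, mul_one]
  have : ∀ B ∈ link 𝓑 x, ((#B : ℕ) : ℝ) = r := fun B hB => by
    rw [(isBases_link h x).card_eq B hB]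
  rw [sum_congr rfl this, sum_const, card_link, nsmul_eq_mul, mul_comm]
  rfl

theorem sum_QQ_link [Fintype α] {𝓑 : Finset (Finset α)} {r : ℕ} (h : IsBases 𝓑 r) (g : α → ℝ) :
    ∑ x, QQ (link 𝓑 x) g = (r - 2) * QQ 𝓑 g := by
  unfold QQ
  simp_rw [sum_link]
  rw [sum_swap 𝓑 fun x B => (∑ y ∈ B.erase x, g y) ^ 2 - ∑ y ∈ B.erase x, g y ^ 2, mul_sum]
  refine sum_congr rfl fun B hB => ?_
  have h1 : ∀ x ∈ B, (∑ y ∈ B.erase x, g y) ^ 2 - ∑ y ∈ B.erase x, g y ^ 2 =
      ((∑ y ∈ B, g y) ^ 2 - ∑ y ∈ B, g y ^ 2) - 2 * (∑ y ∈ B, g y) * g x + 2 * g x ^ 2 := by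
    intro x hx
    have e1 : ∑ y ∈ B.erase x, g y = ∑ y ∈ B, g y - g x := by
      rw [← sum_erase_add _ _ hx]; ring
    have e2 : ∑ y ∈ B.erase x, g y ^ 2 = ∑ y ∈ B, g y ^ 2 - g x ^ 2 := by
      rw [← sum_erase_add _ (fun y => g y ^ 2) hx]; ring
    rw [e1, e2]; ring
  rw [sum_congr rfl h1, sum_add_distrib, sum_sub_distrib, sum_const, ← mul_sum, ← mul_sum,
    h.card_eq B hB, nsmul_eq_mul]
  ring

theorem star_of_link [Fintype α] {𝓑 : Finset (Finset α)} {r : ℕ} (h : IsBases 𝓑 (r + 3))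
    (ih : ∀ x, ∀ g : α → ℝ, ((r + 2 : ℕ) : ℝ) * #(link 𝓑 x) * QQ (link 𝓑 x) g ≤
      (((r + 2 : ℕ) : ℝ) - 1) * LL (link 𝓑 x) g ^ 2) (g : α → ℝ) :
    (r + 2) * QQ 𝓑 g ≤ ∑ x, LL (link 𝓑 x) g ^ 2 / w1 𝓑 x := by
  have h1 : ∀ x, (r + 2) * QQ (link 𝓑 x) g ≤ (r + 1) * (LL (link 𝓑 x) g ^ 2 / w1 𝓑 x) := by
    intro x
    have h2 := ih x g
    rw [card_link] at h2
    change _ * w1 𝓑 x * _ ≤ _ at h2
    rcases (w1_nonneg 𝓑 x).eq_or_lt with h3 | h3
    · have : link 𝓑 x = ∅ := by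
        rw [← card_eq_zero, card_link]
        have h4 : (#{B ∈ 𝓑 | x ∈ B} : ℝ) = 0 := h3.symm
        exact_mod_cast h4
      rw [this]
      simp [QQ, LL]
    · rw [← mul_div_assoc, le_div_iff₀ h3]
      push_cast at h2
      linarith
  have h2 := sum_le_sum fun x (_ : x ∈ univ) => h1 x
  rw [← mul_sum, ← mul_sum, sum_QQ_link h] at h2
  push_cast at h2
  have h3 : (0 : ℝ) < r + 1 := by positivity
  have h4 : ((r : ℝ) + 1) * ((r + 2) * QQ 𝓑 g) ≤
      (r + 1) * ∑ x, LL (link 𝓑 x) g ^ 2 / w1 𝓑 x := by linarith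
  exact le_of_mul_le_mul_left h4 h3

/-! ### Connectivity -/

theorem eq_of_mem {𝓑 : Finset (Finset α)} {g : α → ℝ}
    (hg : ∀ x y, 0 < w2 𝓑 x y → g x = g y) {B : Finset α} (hB : B ∈ 𝓑) {x y : α} (hx : x ∈ B)
    (hy : y ∈ B) : g x = g y := by
  by_cases hxy : y = x
  · rw [hxy]
  · refine hg x y ?_
    unfold w2
    norm_cast
    exact card_pos.2 ⟨B, mem_filter.2 ⟨hB, hx, mem_erase.2 ⟨hxy, hy⟩⟩⟩

theorem const_of {𝓑 : Finset (Finset α)} {r : ℕ} (h : IsBases 𝓑 (r + 2)) {g : α → ℝ}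
    (hg : ∀ x y, 0 < w2 𝓑 x y → g x = g y) {A B : Finset α} (hA : A ∈ 𝓑) (hB : B ∈ 𝓑) {x y : α}
    (hx : x ∈ A) (hy : y ∈ B) : g x = g y := by
  by_cases hAB : A ⊆ B
  · exact eq_of_mem hg hB (hAB hx) hy
  · obtain ⟨z, hz, hzB⟩ := not_subset.1 hAB
    obtain ⟨t, ht, htm⟩ := h.exch A hA B hB z (mem_sdiff.2 ⟨hz, hzB⟩)
    have h1 : 1 < #A := by rw [h.card_eq A hA]; omega
    obtain ⟨s, hs⟩ : (A.erase z).Nonempty := by
      rw [← card_pos, card_erase_of_mem hz]; omega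
    have e1 : g x = g s := eq_of_mem hg hA hx (mem_of_mem_erase hs)
    have e2 : g s = g t := eq_of_mem hg htm (mem_insert_of_mem hs) (mem_insert_self _ _)
    have e3 : g t = g y := eq_of_mem hg hB (mem_sdiff.1 ht).1 hy
    rw [e1, e2, e3]

theorem exists_of_w1 {𝓑 : Finset (Finset α)} {x : α} (h : 0 < w1 𝓑 x) : ∃ B ∈ 𝓑, x ∈ B := by
  unfold w1 at h
  norm_cast at h
  obtain ⟨B, hB⟩ := card_pos.1 h
  exact ⟨B, (mem_filter.1 hB).1, (mem_filter.1 hB).2⟩

/-- The main step: eigenvectors with positive eigenvalue are constant. -/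
theorem main_step [Fintype α] {𝓑 : Finset (Finset α)} {r : ℕ} (h : IsBases 𝓑 (r + 2))
    (hstar : ∀ g : α → ℝ, (r + 1) * QQ 𝓑 g ≤ ∑ x, LL (link 𝓑 x) g ^ 2 / w1 𝓑 x)
    (g0 : α → ℝ) (h0 : LL 𝓑 g0 = 0) : QQ 𝓑 g0 ≤ 0 := by
  set q : α → ℝ := fun x => Real.sqrt (w1 𝓑 x) with hq
  have hqq : ∀ x, q x * q x = w1 𝓑 x := fun x => Real.mul_self_sqrt (w1_nonneg 𝓑 x)
  have hq0 : ∀ x, q x = 0 → w1 𝓑 x = 0 := fun x hx => by rw [← hqq, hx, mul_zero]
  have hw2q : ∀ x y, q x = 0 → w2 𝓑 x y = 0 := fun x y hx => w2_zero (hq0 x hx) y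
  set A : Matrix α α ℝ := fun x y => w2 𝓑 x y / (q x * q y) with hAdef
  have hAH : A.IsHermitian := by
    refine Matrix.IsHermitian.ext fun x y => ?_
    simp only [star_trivial, hAdef]
    rw [w2_symm, mul_comm (q y)]
  have hAmul : ∀ v : α → ℝ, ∀ x, q x * (A *ᵥ v) x = ∑ y, w2 𝓑 x y * (v y / q y) := by
    intro v x
    simp only [mulVec, dotProduct, hAdef, mul_sum]
    refine sum_congr rfl fun y _ => ?_
    by_cases hx : q x = 0
    · rw [hw2q x y hx]; simp
    · by_cases hy : q y = 0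
      · rw [w2_symm, hw2q y x hy]; simp
      · field_simp
  -- the quadratic form
  have hdiv : ∀ g : α → ℝ, ∀ x y, w2 𝓑 x y * (q y * g y / q y) = w2 𝓑 x y * g y := by
    intro g x y
    by_cases hy : q y = 0
    · rw [w2_symm, hw2q y x hy]; simp
    · congr 1
      field_simp
  have hform : (fun x => q x * g0 x) ⬝ᵥ A *ᵥ (fun x => q x * g0 x) = QQ 𝓑 g0 := by
    rw [QQ_eq, dotProduct]
    refine sum_congr rfl fun x _ => ?_
    rw [mul_comm (q x) (g0 x), mul_assoc, hAmul, LL_link]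
    congr 1
    exact sum_congr rfl fun y _ => hdiv g0 x y
  rw [← hform]
  refine spec A hAH _ fun v lam hv hlam => ?_
  set g : α → ℝ := fun x => v x / q x with hg
  have hL : ∀ x, LL (link 𝓑 x) g = lam * w1 𝓑 x * g x := by
    intro x
    rw [LL_link, ← hAmul v x, hv, Pi.smul_apply, smul_eq_mul]
    by_cases hx : q x = 0
    · rw [hx, hq0 x hx]; simp
    · simp only [hg]
      rw [← hqq]
      field_simp
  set P : ℝ := ∑ x, w1 𝓑 x * g x ^ 2 with hP
  have hP0 : 0 ≤ P := sum_nonneg fun x _ => mul_nonneg (w1_nonneg 𝓑 x) (sq_nonneg _)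
  have hQ : QQ 𝓑 g = lam * P := by
    rw [QQ_eq, hP, mul_sum]
    refine sum_congr rfl fun x _ => ?_
    rw [hL]; ring
  have hst : (r + 1) * (lam * P) ≤ lam ^ 2 * P := by
    have h1 := hstar g
    rw [hQ] at h1
    refine h1.trans (le_of_eq ?_)
    rw [hP, mul_sum]
    refine sum_congr rfl fun x _ => ?_
    rw [hL]
    rcases (w1_nonneg 𝓑 x).eq_or_lt with h3 | h3
    · rw [← h3]; simp
    · field_simp
  have hlap : ∑ x, ∑ y, w2 𝓑 x y * (g x - g y) ^ 2 = 2 * ((r + 1) * P - lam * P) := by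
    have e1 : ∀ x y, w2 𝓑 x y * (g x - g y) ^ 2 =
        w2 𝓑 x y * g x ^ 2 + w2 𝓑 y x * g y ^ 2 - 2 * (g x * (w2 𝓑 x y * g y)) := by
      intro x y
      rw [w2_symm 𝓑 y x]; ring
    simp_rw [e1, sum_sub_distrib, sum_add_distrib]
    have e2 : ∑ x, ∑ y, w2 𝓑 x y * g x ^ 2 = (r + 1) * P := by
      rw [hP, mul_sum]
      refine sum_congr rfl fun x _ => ?_
      rw [← sum_mul, sum_w2 h]
      push_cast; ring
    have e3 : ∑ x, ∑ y, w2 𝓑 y x * g y ^ 2 = (r + 1) * P := by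
      rw [sum_comm]; exact e2
    have e4 : ∑ x, ∑ y, 2 * (g x * (w2 𝓑 x y * g y)) = 2 * (lam * P) := by
      rw [← hQ, QQ_eq, mul_sum]
      refine sum_congr rfl fun x _ => ?_
      rw [← mul_sum, ← mul_sum, LL_link]
    rw [e2, e3, e4]; ring
  have hconst : ∀ x y, 0 < w2 𝓑 x y → g x = g y := by
    have hle : ∑ x, ∑ y, w2 𝓑 x y * (g x - g y) ^ 2 ≤ 0 := by
      rw [hlap]
      nlinarith [mul_nonneg hlam.le hP0]
    have hterm : ∀ x y, 0 ≤ w2 𝓑 x y * (g x - g y) ^ 2 := fun x y =>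
      mul_nonneg (w2_nonneg _ _ _) (sq_nonneg _)
    intro x y hxy
    have h1 : ∑ x, ∑ y, w2 𝓑 x y * (g x - g y) ^ 2 = 0 :=
      le_antisymm hle (sum_nonneg fun x _ => sum_nonneg fun y _ => hterm x y)
    have h2 := (sum_eq_zero_iff_of_nonneg fun x _ => sum_nonneg fun y _ => hterm x y).1 h1 x
      (mem_univ _)
    have h3 := (sum_eq_zero_iff_of_nonneg fun y _ => hterm x y).1 h2 y (mem_univ _)
    rcases mul_eq_zero.1 h3 with h4 | h4
    · exact absurd h4 hxy.ne'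
    · have := pow_eq_zero_iff (two_ne_zero) |>.1 h4
      linarith
  -- conclusion
  have hsum : v ⬝ᵥ (fun x => q x * g0 x) = ∑ x, w1 𝓑 x * g0 x * g x := by
    rw [dotProduct]
    refine sum_congr rfl fun x _ => ?_
    by_cases hx : q x = 0
    · rw [hx, hq0 x hx]; simp
    · simp only [hg]
      rw [← hqq]
      field_simp
  rw [hsum]
  by_cases hne : ∃ x, 0 < w1 𝓑 x
  · obtain ⟨x0, hx0⟩ := hne
    obtain ⟨B0, hB0, hxB0⟩ := exists_of_w1 hx0
    have : ∀ x, w1 𝓑 x * g0 x * g x = w1 𝓑 x * g0 x * g x0 := by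
      intro x
      rcases (w1_nonneg 𝓑 x).eq_or_lt with h3 | h3
      · rw [← h3]; simp
      · obtain ⟨B, hB, hxB⟩ := exists_of_w1 h3
        rw [const_of h hconst hB hB0 hxB hxB0]
    simp_rw [this]
    rw [← sum_mul, ← LL_eq, h0, zero_mul]
  · push Not at hne
    refine sum_eq_zero fun x _ => ?_
    rw [le_antisymm (hne x) (w1_nonneg 𝓑 x)]; simp

/-! ### Rank two -/

theorem rank_two [Fintype α] {𝓑 : Finset (Finset α)} (h : IsBases 𝓑 2) (g : α → ℝ)
    (h0 : LL 𝓑 g = 0) : QQ 𝓑 g ≤ 0 := by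
  classical
  -- the relation of being parallel
  set E : α → α → Prop := fun x y => 0 < w1 𝓑 x ∧ 0 < w1 𝓑 y ∧ w2 𝓑 x y = 0 with hE
  set e : α → α → ℝ := fun x y => if E x y then 1 else 0 with he
  set l : α → ℝ := fun x => if 0 < w1 𝓑 x then 1 else 0 with hl
  have hsymm : ∀ x y, E x y → E y x := fun x y hxy => ⟨hxy.2.1, hxy.1, by rw [w2_symm]; exact hxy.2.2⟩
  have hesymm : ∀ x y, e x y = e y x := by
    intro x y
    simp only [he]
    by_cases hxy : E x y
    · rw [if_pos hxy, if_pos (hsymm x y hxy)]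
    · rw [if_neg hxy, if_neg fun h' => hxy (hsymm y x h')]
  have hw2 : ∀ x y, w2 𝓑 x y = if ({x, y} : Finset α) ∈ 𝓑 ∧ x ≠ y then 1 else 0 := by
    intro x y
    by_cases hxy : x = y
    · rw [hxy, w2_self]; simp
    · have key : ({B ∈ 𝓑 | x ∈ B ∧ y ∈ B.erase x} : Finset (Finset α)) =
          if ({x, y} : Finset α) ∈ 𝓑 then {{x, y}} else ∅ := by
        have hB : ∀ B ∈ 𝓑, x ∈ B → y ∈ B.erase x → B = {x, y} := by
          intro B hB hx hy
          symm
          refine eq_of_subset_of_card_le ?_ ?_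
          · intro z hz
            rw [mem_insert, mem_singleton] at hz
            rcases hz with rfl | rfl
            · exact hx
            · exact mem_of_mem_erase hy
          · rw [h.card_eq B hB, card_pair hxy]
        split_ifs with hm
        · ext B
          rw [mem_filter, mem_singleton]
          constructor
          · rintro ⟨h1, h2, h3⟩; exact hB B h1 h2 h3
          · rintro rfl
            exact ⟨hm, by simp, by simp [Ne.symm hxy]⟩
        · rw [filter_eq_empty_iff]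
          rintro B h1 ⟨h2, h3⟩
          exact hm (hB B h1 h2 h3 ▸ h1)
      unfold w2
      rw [key]
      by_cases hm : ({x, y} : Finset α) ∈ 𝓑
      · simp [hm, hxy]
      · simp [hm]
  have hpos_of : ∀ x y, ({x, y} : Finset α) ∈ 𝓑 → 0 < w1 𝓑 x := by
    intro x y hxy
    unfold w1
    norm_cast
    exact card_pos.2 ⟨_, mem_filter.2 ⟨hxy, by simp⟩⟩
  have hrepr : ∀ x y, w2 𝓑 x y = l x * l y - e x y := by
    intro x y
    simp only [hl, he, hE]
    by_cases h1 : 0 < w1 𝓑 x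
    · by_cases h2 : 0 < w1 𝓑 y
      · simp only [h1, h2, true_and, if_true]
        rw [hw2]
        by_cases h3 : ({x, y} : Finset α) ∈ 𝓑 ∧ x ≠ y
        · simp [h3]
        · simp [h3]
      · have : w2 𝓑 x y = 0 := by
          rw [w2_symm]; exact w2_zero (le_antisymm (not_lt.1 h2) (w1_nonneg _ _)) x
        simp [h2, this]
    · have : w2 𝓑 x y = 0 := w2_zero (le_antisymm (not_lt.1 h1) (w1_nonneg _ _)) y
      simp [h1, this]
  have htrans : ∀ x y z, E x y → E y z → E x z := by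
    rintro x y z ⟨hx, hy, hxy⟩ ⟨-, hz, hyz⟩
    refine ⟨hx, hz, ?_⟩
    by_contra hne
    have hxz : ({x, z} : Finset α) ∈ 𝓑 ∧ x ≠ z := by
      by_contra h'
      rw [hw2, if_neg h'] at hne
      exact hne rfl
    have hxy' : ¬ (({x, y} : Finset α) ∈ 𝓑 ∧ x ≠ y) := by
      intro h'
      rw [hw2, if_pos h'] at hxy
      exact one_ne_zero hxy
    have hyz' : ¬ (({y, z} : Finset α) ∈ 𝓑 ∧ y ≠ z) := by
      intro h'
      rw [hw2, if_pos h'] at hyz
      exact one_ne_zero hyz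
    have hyx : y ≠ x := by
      rintro rfl
      exact hyz' hxz
    have hyz2 : y ≠ z := by
      rintro rfl
      exact hxy' hxz
    obtain ⟨B, hB, hyB⟩ := exists_of_w1 hy
    have hcard := h.card_eq B hB
    obtain ⟨w, hw⟩ : (B.erase y).Nonempty := by
      rw [← card_pos, card_erase_of_mem hyB]; omega
    have hwB := mem_of_mem_erase hw
    have hwy : w ≠ y := ne_of_mem_erase hw
    have hBe : B = {y, w} := by
      symm
      refine eq_of_subset_of_card_le ?_ ?_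
      · intro t ht
        rw [mem_insert, mem_singleton] at ht
        rcases ht with rfl | rfl
        · exact hyB
        · exact hwB
      · rw [hcard, card_pair hwy.symm]
    have hwx : w ≠ x := by
      rintro rfl
      refine hxy' ⟨?_, hwy⟩
      rw [pair_comm, ← hBe]; exact hB
    have hwz : w ≠ z := by
      rintro rfl
      exact hyz' ⟨hBe ▸ hB, hyz2⟩
    obtain ⟨u, hu, hum⟩ := h.exch B hB {x, z} hxz.1 w (by
      rw [mem_sdiff]; exact ⟨hwB, by simp [hwx, hwz]⟩)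
    have he2 : insert u (B.erase w) = {u, y} := by
      rw [hBe]
      ext t
      simp only [mem_insert, mem_erase, mem_singleton]
      constructor
      · rintro (h1 | ⟨h1, h2 | h2⟩)
        · exact Or.inl h1
        · exact Or.inr h2
        · exact absurd h2 h1
      · rintro (h1 | h1)
        · exact Or.inl h1
        · exact Or.inr ⟨by rw [h1]; exact hwy.symm, Or.inl h1⟩
    rw [he2] at hum
    rw [mem_sdiff, mem_insert, mem_singleton] at hu
    rcases hu.1 with rfl | rfl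
    · exact hxy' ⟨hum, hyx.symm⟩
    · exact hyz' ⟨by rw [pair_comm]; exact hum, hyz2⟩
  set c : α → ℝ := fun x => ∑ y, e x y with hc
  set s : α → ℝ := fun x => ∑ y, e x y * g y with hs
  set n0 : ℝ := ∑ x, l x with hn0
  set S : ℝ := ∑ x, l x * g x with hS
  have he0 : ∀ x y, 0 ≤ e x y := fun x y => by simp only [he]; split_ifs <;> norm_num
  have hrow : ∀ x y, E x y → ∀ z, e x z = e y z := by
    intro x y hxy z
    simp only [he]
    by_cases h1 : E x z
    · rw [if_pos h1, if_pos (htrans y x z (hsymm x y hxy) h1)]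
    · rw [if_neg h1, if_neg fun h2 => h1 (htrans x y z hxy h2)]
  have hcE : ∀ x y, E x y → c x = c y := fun x y hxy => by
    simp only [hc]; exact sum_congr rfl fun z _ => hrow x y hxy z
  have hsE : ∀ x y, E x y → s x = s y := fun x y hxy => by
    simp only [hs]; exact sum_congr rfl fun z _ => by rw [hrow x y hxy z]
  have hl01 : ∀ x, l x * l x = l x := fun x => by simp only [hl]; split_ifs <;> norm_num
  have hel : ∀ x y, e x y ≤ l y := by
    intro x y
    simp only [he, hl]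
    by_cases hxy : E x y
    · rw [if_pos hxy, if_pos hxy.2.1]
    · rw [if_neg hxy]; split_ifs <;> norm_num
  have hcn : ∀ x, c x ≤ n0 := fun x => sum_le_sum fun y _ => hel x y
  have hc1 : ∀ x, 0 < w1 𝓑 x → 1 ≤ c x := by
    intro x hx
    have : e x x = 1 := by simp only [he]; rw [if_pos ⟨hx, hx, w2_self 𝓑 x⟩]
    rw [← this]
    exact single_le_sum (f := fun y => e x y) (fun y _ => he0 x y) (mem_univ x)
  have hs0 : ∀ x, ¬ 0 < w1 𝓑 x → s x = 0 := by
    intro x hx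
    refine sum_eq_zero fun y _ => ?_
    simp only [he]
    rw [if_neg fun h' => hx h'.1, zero_mul]
  -- first identity
  have hLL : LL 𝓑 g = n0 * S - ∑ x, s x := by
    rw [LL_eq]
    have h1 : ∀ x, w1 𝓑 x = ∑ y, w2 𝓑 x y := fun x => by
      have := sum_w2 (r := 1) h x
      rw [this]; simp
    have h2 : ∑ x, s x = ∑ x, c x * g x := by
      simp only [hs, hc]
      rw [sum_comm]
      refine sum_congr rfl fun x _ => ?_
      rw [sum_mul]
      exact sum_congr rfl fun y _ => by rw [hesymm]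
    rw [h2, hS, hn0, sum_mul_sum, sum_comm, ← sum_sub_distrib]
    refine sum_congr rfl fun x _ => ?_
    rw [h1]
    simp_rw [hrepr, sum_sub_distrib]
    rw [sub_mul, sum_mul]
    congr 1
    refine sum_congr rfl fun y _ => ?_
    ring
  have hQQ : QQ 𝓑 g = S ^ 2 - ∑ x, g x * s x := by
    rw [QQ_eq, sq, hS, sum_mul_sum, ← sum_sub_distrib]
    refine sum_congr rfl fun x _ => ?_
    rw [LL_link]
    simp_rw [hrepr, sub_mul, sum_sub_distrib]
    rw [mul_sub, mul_sum]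
    congr 1
    refine sum_congr rfl fun y _ => ?_
    ring
  -- the key identity
  have hkey : ∑ x, s x ^ 2 / c x = ∑ x, g x * s x := by
    have h1 : ∀ x, s x ^ 2 / c x = ∑ y, e x y * (g y * (s y / c y)) := by
      intro x
      have h2 : ∀ y, e x y * (g y * (s y / c y)) = (e x y * g y) * (s x / c x) := by
        intro y
        by_cases hxy : E x y
        · rw [hsE x y hxy, hcE x y hxy]; ring
        · have : e x y = 0 := by simp only [he]; rw [if_neg hxy]
          rw [this]; ring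
      simp_rw [h2]
      rw [← sum_mul]
      change s x ^ 2 / c x = s x * (s x / c x)
      rw [sq, mul_div_assoc]
    simp_rw [h1]
    rw [sum_comm]
    refine sum_congr rfl fun y _ => ?_
    rw [← sum_mul]
    have h3 : ∑ x, e x y = c y := sum_congr rfl fun x _ => hesymm x y
    rw [h3]
    by_cases hy : 0 < w1 𝓑 y
    · have := hc1 y hy
      have h4 : c y ≠ 0 := by linarith
      field_simp
    · rw [hs0 y hy]; ring
  have hcs : (∑ x, s x) ^ 2 ≤ n0 * ∑ x, s x ^ 2 := by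
    have h1 : ∑ x, s x = ∑ x, l x * s x := by
      refine sum_congr rfl fun x _ => ?_
      simp only [hl]
      by_cases hx : 0 < w1 𝓑 x
      · rw [if_pos hx, one_mul]
      · rw [hs0 x hx, mul_zero]
    have h2 : n0 = ∑ x, l x ^ 2 := sum_congr rfl fun x _ => by rw [sq, hl01]
    rw [h1, h2]
    exact sum_mul_sq_le_sq_mul_sq _ _ _
  have hn0' : 0 ≤ n0 := sum_nonneg fun x _ => by simp only [hl]; split_ifs <;> norm_num
  have hss : ∑ x, s x ^ 2 ≤ n0 * ∑ x, g x * s x := by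
    rw [← hkey, mul_sum]
    refine sum_le_sum fun x _ => ?_
    by_cases hx : 0 < w1 𝓑 x
    · have h1 := hc1 x hx
      have h2 := hcn x
      have h3 : 0 < c x := by linarith
      rw [← mul_div_assoc, le_div_iff₀ h3, mul_comm]
      exact mul_le_mul_of_nonneg_right h2 (sq_nonneg _)
    · rw [hs0 x hx]; simp
  rw [hQQ]
  rw [hLL] at h0
  have h1 : (n0 * S) ^ 2 ≤ n0 ^ 2 * ∑ x, g x * s x := by
    have : n0 * S = ∑ x, s x := by linarith
    rw [this]
    calc (∑ x, s x) ^ 2 ≤ n0 * ∑ x, s x ^ 2 := hcs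
      _ ≤ n0 * (n0 * ∑ x, g x * s x) := mul_le_mul_of_nonneg_left hss hn0'
      _ = _ := by ring
  rcases hn0'.eq_or_lt with h2 | h2
  · -- no points
    have h3 : ∀ x, ¬ 0 < w1 𝓑 x := by
      intro x hx
      have h4 := hc1 x hx
      have h5 := hcn x
      linarith
    have h6 : S = 0 := by
      refine sum_eq_zero fun x _ => ?_
      simp only [hl]
      rw [if_neg (h3 x), zero_mul]
    have h7 : ∑ x, g x * s x = 0 := sum_eq_zero fun x _ => by rw [hs0 x (h3 x), mul_zero]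
    rw [h6, h7]; simp
  · have h3 : 0 < n0 ^ 2 := by positivity
    have h4 : n0 ^ 2 * S ^ 2 ≤ n0 ^ 2 * ∑ x, g x * s x := by
      rw [← mul_pow]; exact h1
    have := le_of_mul_le_mul_left h4 h3
    linarith

/-! ### The theorem -/

theorem sum_card {𝓑 : Finset (Finset α)} {r : ℕ} (h : IsBases 𝓑 r) :
    ∑ B ∈ 𝓑, ((#B : ℕ) : ℝ) = r * #𝓑 := by
  have : ∀ B ∈ 𝓑, ((#B : ℕ) : ℝ) = r := fun B hB => by rw [h.card_eq B hB]
  rw [sum_congr rfl this, sum_const, nsmul_eq_mul, mul_comm]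

theorem of_zero {𝓑 : Finset (Finset α)} {r : ℕ} (h : IsBases 𝓑 r) (hr : 1 ≤ r)
    (h0 : ∀ g : α → ℝ, LL 𝓑 g = 0 → QQ 𝓑 g ≤ 0) (g : α → ℝ) :
    (r : ℝ) * #𝓑 * QQ 𝓑 g ≤ (r - 1) * LL 𝓑 g ^ 2 := by
  rcases 𝓑.eq_empty_or_nonempty with rfl | hne
  · simp [LL]
  have hN : (0 : ℝ) < #𝓑 := by exact_mod_cast card_pos.2 hne
  have hr' : (1 : ℝ) ≤ r := by exact_mod_cast hr
  set N : ℝ := (#𝓑 : ℝ) with hNN
  set c : ℝ := LL 𝓑 g / (r * N) with hc
  have hrN : 0 < r * N := by positivity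
  have hLg : LL 𝓑 g = c * (r * N) := by rw [hc]; field_simp
  have hsub : ∀ B : Finset α, ∑ x ∈ B, (g x - c) = ∑ x ∈ B, g x - #B * c := by
    intro B; rw [sum_sub_distrib, sum_const, nsmul_eq_mul]
  have hL0 : LL 𝓑 (fun x => g x - c) = 0 := by
    unfold LL
    simp_rw [hsub]
    rw [sum_sub_distrib, ← sum_mul, sum_card h]
    change LL 𝓑 g - _ = 0
    rw [hLg]; ring
  have hQ := h0 _ hL0
  have hQe : QQ 𝓑 (fun x => g x - c) = QQ 𝓑 g - 2 * c * (r - 1) * LL 𝓑 g +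
      c ^ 2 * (r * (r - 1)) * N := by
    unfold QQ LL
    simp_rw [hsub]
    have : ∀ B ∈ 𝓑, (∑ x ∈ B, g x - #B * c) ^ 2 - ∑ x ∈ B, (g x - c) ^ 2 =
        ((∑ x ∈ B, g x) ^ 2 - ∑ x ∈ B, g x ^ 2) - 2 * c * (r - 1) * ∑ x ∈ B, g x +
          c ^ 2 * (r * (r - 1)) := by
      intro B hB
      have e1 : ∑ x ∈ B, (g x - c) ^ 2 = ∑ x ∈ B, g x ^ 2 - 2 * c * ∑ x ∈ B, g x + #B * c ^ 2 := by
        have : ∀ x, (g x - c) ^ 2 = g x ^ 2 - 2 * c * g x + c ^ 2 := fun x => by ring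
        simp_rw [this]
        rw [sum_add_distrib, sum_sub_distrib, sum_const, nsmul_eq_mul, mul_sum]
      rw [e1, h.card_eq B hB]; ring
    rw [sum_congr rfl this, sum_add_distrib, sum_sub_distrib, sum_const, nsmul_eq_mul, ← mul_sum]
    ring
  rw [hQe, hLg] at hQ
  rw [hLg]
  have h1 : QQ 𝓑 g ≤ c ^ 2 * r * (r - 1) * N := by nlinarith
  calc (r : ℝ) * N * QQ 𝓑 g ≤ r * N * (c ^ 2 * r * (r - 1) * N) :=
        mul_le_mul_of_nonneg_left h1 hrN.le
    _ = _ := by ring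

theorem S1 [Fintype α] {𝓑 : Finset (Finset α)} {r : ℕ}
    (h : IsBases 𝓑 r) (g : α → ℝ) :
    (r : ℝ) * #𝓑 * QQ 𝓑 g ≤ (r - 1) * LL 𝓑 g ^ 2 := by
  induction r generalizing 𝓑 g with
  | zero =>
    have : LL 𝓑 g = 0 := by
      unfold LL
      refine sum_eq_zero fun B hB => ?_
      rw [card_eq_zero.1 (h.card_eq B hB), sum_empty]
    rw [this]; simp
  | succ r ih =>
    refine of_zero h (by omega) (fun g h0 => ?_) g
    rcases r with _ | _ | r
    · unfold QQ
      refine sum_nonpos fun B hB => ?_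
      obtain ⟨x, rfl⟩ := card_eq_one.1 (h.card_eq B hB)
      simp
    · exact rank_two h g h0
    · refine main_step (r := r + 1) h (fun g => ?_) g h0
      have := star_of_link (r := r) h (fun x g => ih (isBases_link h x) g) g
      push_cast
      refine le_trans (le_of_eq ?_) this
      ring

end Pool.Agent.H641R2.SST
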