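import Pool.Agent.H641R2.SST.S1

/-!
# Poincaré inequality on the basis exchange graph
-/

namespace Pool.Agent.H641R2.SST

open Finset Pool.Agent.H741R2.SST

variable {α : Type} [DecidableEq α]

/-- `N` times the variance. -/
noncomputable def VV (𝓑 : Finset (Finset α)) (f : Finset α → ℝ) : ℝ :=
  ∑ B ∈ 𝓑, f B ^ 2 - (∑ B ∈ 𝓑, f B) ^ 2 / #𝓑

/-- The Dirichlet form. -/
noncomputable def RR (𝓑 : Finset (Finset α)) (f : Finset α → ℝ) : ℝ :=
  ∑ A ∈ 𝓑, ∑ B ∈ 𝓑 with #(A \ B) = 1, (f A - f B) ^ 2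

theorem RR_nonneg (𝓑 : Finset (Finset α)) (f : Finset α → ℝ) : 0 ≤ RR 𝓑 f :=
  sum_nonneg fun _ _ => sum_nonneg fun _ _ => sq_nonneg _

theorem VV_link (𝓑 : Finset (Finset α)) (f : Finset α → ℝ) (x : α) :
    VV (link 𝓑 x) (fun B => f (insert x B)) =
      ∑ B ∈ 𝓑 with x ∈ B, f B ^ 2 - (∑ B ∈ 𝓑 with x ∈ B, f B) ^ 2 / #{B ∈ 𝓑 | x ∈ B} := by
  unfold VV
  rw [sum_link, sum_link, card_link]
  congr 1
  · refine sum_congr rfl fun B hB => ?_
    dsimp only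
    rw [insert_erase (mem_filter.1 hB).2]
  · congr 2
    refine sum_congr rfl fun B hB => ?_
    rw [insert_erase (mem_filter.1 hB).2]

theorem RR_link (𝓑 : Finset (Finset α)) (f : Finset α → ℝ) (x : α) :
    RR (link 𝓑 x) (fun B => f (insert x B)) =
      ∑ A ∈ 𝓑 with x ∈ A, ∑ B ∈ 𝓑, if x ∈ B ∧ #(A \ B) = 1 then (f A - f B) ^ 2 else 0 := by
  unfold RR
  rw [sum_link]
  refine sum_congr rfl fun A hA => ?_
  rw [mem_filter] at hA
  rw [sum_filter, sum_link, sum_filter]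
  refine sum_congr rfl fun B _ => ?_
  by_cases hx : x ∈ B
  · rw [if_pos hx]
    dsimp only
    rw [insert_erase hA.2, insert_erase hx]
    have : A.erase x \ B.erase x = A \ B := by
      ext y
      simp only [mem_sdiff, mem_erase, not_and]
      constructor
      · rintro ⟨⟨h1, h2⟩, h3⟩
        exact ⟨h2, fun h4 => h3 h1 h4⟩
      · rintro ⟨h1, h2⟩
        exact ⟨⟨fun e => h2 (e ▸ hx), h1⟩, fun _ h4 => h2 h4⟩
    rw [this]
    simp [hx]
  · rw [if_neg hx, if_neg (fun h => hx h.1)]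

theorem sum_RR_link [Fintype α] {𝓑 : Finset (Finset α)} {r : ℕ} (h : IsBases 𝓑 (r + 1))
    (f : Finset α → ℝ) :
    ∑ x, RR (link 𝓑 x) (fun B => f (insert x B)) = r * RR 𝓑 f := by
  simp_rw [RR_link]
  rw [sum_swap 𝓑 fun x A => ∑ B ∈ 𝓑, if x ∈ B ∧ #(A \ B) = 1 then (f A - f B) ^ 2 else 0]
  unfold RR
  rw [mul_sum]
  refine sum_congr rfl fun A hA => ?_
  rw [sum_comm, sum_filter, mul_sum]
  refine sum_congr rfl fun B _ => ?_
  by_cases hAB : #(A \ B) = 1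
  · simp only [hAB, and_true, if_true]
    rw [← sum_filter, sum_const, nsmul_eq_mul]
    congr 1
    have h1 : #({x ∈ A | x ∈ B}) + #(A \ B) = #A := by
      rw [← card_filter_add_card_filter_not (s := A) (fun x => x ∈ B)]
      congr 2
      ext y; simp [mem_sdiff]
    rw [hAB, h.card_eq A hA] at h1
    have : #({x ∈ A | x ∈ B}) = r := by omega
    rw [this]
  · simp [hAB]

omit [DecidableEq α] in
theorem expand (𝓑 : Finset (Finset α)) (f G : Finset α → ℝ) (c : ℝ) :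
    ∑ B ∈ 𝓑, (f B - G B + c) ^ 2 = ∑ B ∈ 𝓑, f B ^ 2 - 2 * ∑ B ∈ 𝓑, f B * G B +
      ∑ B ∈ 𝓑, G B ^ 2 + 2 * c * (∑ B ∈ 𝓑, f B - ∑ B ∈ 𝓑, G B) + #𝓑 * c ^ 2 := by
  have : ∀ B, (f B - G B + c) ^ 2 =
      f B ^ 2 - 2 * (f B * G B) + G B ^ 2 + 2 * c * (f B - G B) + c ^ 2 := by
    intro B; ring
  simp_rw [this, sum_add_distrib, sum_sub_distrib, ← mul_sum, sum_const, nsmul_eq_mul,
    sum_sub_distrib]

/-- The projection inequality. -/
theorem proj [Fintype α] {𝓑 : Finset (Finset α)} {r : ℕ} (h : IsBases 𝓑 (r + 1))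
    (hN : 0 < #𝓑) (hS1 : ∀ g : α → ℝ, ((r + 1 : ℕ) : ℝ) * #𝓑 * QQ 𝓑 g ≤
      (((r + 1 : ℕ) : ℝ) - 1) * LL 𝓑 g ^ 2) (f : Finset α → ℝ) :
    ∑ x, (∑ B ∈ 𝓑 with x ∈ B, f B) ^ 2 / #{B ∈ 𝓑 | x ∈ B} ≤
      ∑ B ∈ 𝓑, f B ^ 2 + r * (∑ B ∈ 𝓑, f B) ^ 2 / #𝓑 := by
  set w : α → ℝ := fun x => (#{B ∈ 𝓑 | x ∈ B} : ℝ) with hw
  set F : α → ℝ := fun x => ∑ B ∈ 𝓑 with x ∈ B, f B with hF
  set g : α → ℝ := fun x => F x / w x with hg
  set P : ℝ := ∑ x, F x ^ 2 / w x with hP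
  set a : ℝ := ∑ B ∈ 𝓑, f B with ha
  have hw0 : ∀ x, w x = 0 → F x = 0 := by
    intro x hx
    have : ({B ∈ 𝓑 | x ∈ B} : Finset (Finset α)) = ∅ := by
      rw [← card_eq_zero]
      have hx' : (#{B ∈ 𝓑 | x ∈ B} : ℝ) = 0 := hx
      exact_mod_cast hx'
    simp only [hF, this, sum_empty]
  have hwg : ∀ x, w x * g x = F x := by
    intro x
    by_cases hx : w x = 0
    · rw [hx, zero_mul, hw0 x hx]
    · simp only [hg]; field_simp
  have e1 : P = ∑ B ∈ 𝓑, f B * ∑ x ∈ B, g x := by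
    rw [hP]
    have : ∀ x, F x ^ 2 / w x = ∑ B ∈ 𝓑 with x ∈ B, f B * g x := by
      intro x
      rw [← sum_mul, sq, mul_div_assoc]
    simp_rw [this]
    rw [sum_swap 𝓑 fun x B => f B * g x]
    exact sum_congr rfl fun B _ => (mul_sum _ _ _).symm
  have e2 : P = ∑ B ∈ 𝓑, ∑ x ∈ B, g x ^ 2 := by
    rw [hP, ← sum_swap 𝓑 fun x _ => g x ^ 2]
    refine sum_congr rfl fun x _ => ?_
    rw [sum_const, nsmul_eq_mul]
    change F x ^ 2 / w x = w x * g x ^ 2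
    rw [sq (g x), ← mul_assoc, hwg, sq, mul_div_assoc]
  have e3 : LL 𝓑 g = (r + 1) * a := by
    unfold LL
    rw [← sum_swap 𝓑 fun x _ => g x]
    have : ∀ x, ∑ B ∈ 𝓑 with x ∈ B, g x = ∑ B ∈ 𝓑 with x ∈ B, f B := by
      intro x
      rw [sum_const, nsmul_eq_mul]
      exact hwg x
    simp_rw [this]
    rw [sum_swap 𝓑 fun _ B => f B, ha, mul_sum]
    refine sum_congr rfl fun B hB => ?_
    rw [sum_const, h.card_eq B hB, nsmul_eq_mul]
    push_cast; ring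
  have e4 : ∑ B ∈ 𝓑, (∑ x ∈ B, g x) ^ 2 = QQ 𝓑 g + P := by
    rw [e2]
    unfold QQ
    rw [sum_sub_distrib]; ring
  have e5 : ∑ B ∈ 𝓑, ∑ x ∈ B, g x = (r + 1) * a := e3
  have hN' : (0 : ℝ) < #𝓑 := by exact_mod_cast hN
  set N : ℝ := (#𝓑 : ℝ) with hNN
  have e6 : QQ 𝓑 g ≤ r * (r + 1) * a ^ 2 / N := by
    have := hS1 g
    rw [e3] at this
    push_cast at this
    rw [le_div_iff₀ hN']
    have h2 : (0 : ℝ) < r + 1 := by positivity
    have h3 : ((r : ℝ) + 1) * (QQ 𝓑 g * N) ≤ (r + 1) * (r * (r + 1) * a ^ 2) := by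
      nlinarith
    exact le_of_mul_le_mul_left h3 h2
  have e7 : 0 ≤ ∑ B ∈ 𝓑, (f B - ∑ x ∈ B, g x + r * a / N) ^ 2 :=
    sum_nonneg fun _ _ => sq_nonneg _
  have e8 : ∑ B ∈ 𝓑, (f B - ∑ x ∈ B, g x + r * a / N) ^ 2 =
      ∑ B ∈ 𝓑, f B ^ 2 - 2 * P + (QQ 𝓑 g + P) + 2 * (r * a / N) * (a - (r + 1) * a) +
        N * (r * a / N) ^ 2 := by
    rw [← e4, ← e5, e1, expand, hNN]
  rw [e8] at e7
  have e9 : 2 * (r * a / N) * (a - (r + 1) * a) + N * (r * a / N) ^ 2 = - (r ^ 2 * a ^ 2 / N) := by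
    field_simp
    ring
  have e10 : r * (r + 1) * a ^ 2 / N = r ^ 2 * a ^ 2 / N + r * a ^ 2 / N := by ring
  linarith

theorem S2aux [Fintype α]
    (hS1 : ∀ (r : ℕ) (𝓑 : Finset (Finset α)), IsBases 𝓑 r → ∀ g : α → ℝ,
      (r : ℝ) * #𝓑 * QQ 𝓑 g ≤ ((r : ℝ) - 1) * LL 𝓑 g ^ 2) :
    ∀ (r : ℕ) (𝓑 : Finset (Finset α)), IsBases 𝓑 r → ∀ f : Finset α → ℝ,
      VV 𝓑 f ≤ RR 𝓑 f := by
  intro r
  induction r with
  | zero =>
    intro 𝓑 h f
    refine le_trans (le_of_eq ?_) (RR_nonneg 𝓑 f)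
    rcases 𝓑.eq_empty_or_nonempty with rfl | ⟨B, hB⟩
    · simp [VV]
    · have : 𝓑 = {∅} := by
        ext A
        rw [mem_singleton]
        constructor
        · intro hA; exact card_eq_zero.1 (h.card_eq A hA)
        · rintro rfl
          rwa [card_eq_zero.1 (h.card_eq B hB)] at hB
      simp [VV, this]
  | succ r ih =>
    intro 𝓑 h f
    rcases 𝓑.eq_empty_or_nonempty with rfl | hne
    · simp [VV, RR]
    have hN : 0 < #𝓑 := card_pos.2 hne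
    have hN' : (0 : ℝ) < #𝓑 := by exact_mod_cast hN
    rcases Nat.eq_zero_or_pos r with rfl | hr
    · -- rank one
      have h1 : RR 𝓑 f = ∑ A ∈ 𝓑, ∑ B ∈ 𝓑, (f A - f B) ^ 2 := by
        unfold RR
        refine sum_congr rfl fun A hA => ?_
        rw [sum_filter]
        refine sum_congr rfl fun B hB => ?_
        split_ifs with hAB
        · rfl
        · have h2 := h.card_eq A hA
          have h3 := h.card_eq B hB
          have h4 : A \ B = ∅ := by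
            rw [← card_eq_zero]
            have := card_le_card (sdiff_subset : A \ B ⊆ A)
            omega
          have h5 : A ⊆ B := sdiff_eq_empty_iff_subset.1 h4
          have h6 : A = B := eq_of_subset_of_card_le h5 (by omega)
          rw [h6]; simp
      have h2 : RR 𝓑 f = 2 * #𝓑 * VV 𝓑 f := by
        rw [h1]
        have : ∀ A B : Finset α, (f A - f B) ^ 2 = f A ^ 2 + f B ^ 2 - 2 * (f A * f B) := by
          intro A B; ring
        simp_rw [this, sum_sub_distrib, sum_add_distrib, sum_const, nsmul_eq_mul, ← mul_sum,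
          ← sum_mul]
        unfold VV
        field_simp
        ring
      have h3 : 0 ≤ VV 𝓑 f := by
        have := RR_nonneg 𝓑 f
        rw [h2] at this
        exact nonneg_of_mul_nonneg_right this (by positivity)
      rw [h2]
      have h4 : (1 : ℝ) ≤ #𝓑 := by exact_mod_cast hN
      nlinarith
    · have h1 : ∑ x, VV (link 𝓑 x) (fun B => f (insert x B)) ≤
          ∑ x, RR (link 𝓑 x) (fun B => f (insert x B)) :=
        sum_le_sum fun x _ => ih _ (isBases_link h x) _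
      rw [sum_RR_link h] at h1
      simp_rw [VV_link] at h1
      rw [sum_sub_distrib, sum_swap 𝓑 fun _ B => f B ^ 2] at h1
      have h2 : ∑ B ∈ 𝓑, ∑ _x ∈ B, f B ^ 2 = (r + 1) * ∑ B ∈ 𝓑, f B ^ 2 := by
        rw [mul_sum]
        refine sum_congr rfl fun B hB => ?_
        rw [sum_const, h.card_eq B hB, nsmul_eq_mul]
        push_cast; ring
      rw [h2] at h1
      have h3 := proj h hN (hS1 _ 𝓑 h) f
      have h4 : (r : ℝ) * VV 𝓑 f ≤ r * RR 𝓑 f := by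
        unfold VV
        rw [mul_div_assoc] at h3
        linarith
      exact le_of_mul_le_mul_left h4 (by exact_mod_cast hr)

theorem S2 [Fintype α] {𝓑 : Finset (Finset α)} {r : ℕ}
    (h : IsBases 𝓑 r) (f : Finset α → ℝ) :
    ∑ B ∈ 𝓑, f B ^ 2 - (∑ B ∈ 𝓑, f B) ^ 2 / #𝓑 ≤
      ∑ A ∈ 𝓑, ∑ B ∈ 𝓑 with #(A \ B) = 1, (f A - f B) ^ 2 :=
  S2aux (fun _ _ h g => S1 h g) r 𝓑 h f

end Pool.Agent.H641R2.SST
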